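import Pool.Agent.Run7.h282.PM.Iface

/-!
# Piece CHR of project PM (helper282), by helper834: a primitive character and the dual description
of the indicator of `0`
-/

set_option autoImplicit false
set_option linter.all false

open Finset

namespace Run7.h834.PM

open Run7.h282.PM

open Classical in
/-- the sum of a primitive character over the values of a linear functional -/
theorem sum_lin {F V : Type} [Field F] [Fintype F] [AddCommGroup V] [Module F V] [Fintype V]
    (ψ : AddChar F ℂ) (hψ : ψ.IsPrimitive) (l : V →ₗ[F] F) :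
    ∑ u, ψ (l u) = if l = 0 then (Fintype.card V : ℂ) else 0 := by
  have h1 := AddChar.sum_eq_ite (ψ.compAddMonoidHom l.toAddMonoidHom)
  have h2 : ∑ u, (ψ.compAddMonoidHom l.toAddMonoidHom) u = ∑ u, ψ (l u) := rfl
  rw [h2] at h1
  rw [h1]
  by_cases hl : l = 0
  · rw [if_pos hl, if_pos]
    subst hl
    ext u
    show ψ 0 = _
    rw [AddChar.map_zero_eq_one]
    rfl
  · rw [if_neg hl, if_neg]
    intro h
    apply hl
    ext u
    by_contra hu
    apply hψ hu
    ext x
    have h3 : ψ (l (x • u)) = 1 := by
      have := DFunLike.congr_fun h (x • u)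
      exact this
    rw [map_smul, smul_eq_mul, mul_comm] at h3
    exact h3

theorem exists_prim (F : Type) [Field F] [Fintype F] : ∃ ψ : AddChar F ℂ, ψ.IsPrimitive := by
  obtain ⟨ψ, hψ⟩ := AddChar.exists_apply_ne_zero.mpr (one_ne_zero : (1 : F) ≠ 0)
  refine ⟨ψ, AddChar.IsPrimitive.of_ne_one ?_⟩
  rintro rfl
  exact hψ rfl

/-- the functional `x ↦ (x · y) univ` -/
noncomputable def fn {F : Type} [Field F] {N : ℕ} (y : Finset (Fin (N + 1)) → F) :
    (Fin (N + 1) → F) →ₗ[F] F where
  toFun x := mulv x y univ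
  map_add' x x' := by
    simp only [mulv, Pi.add_apply, add_mul, Finset.sum_add_distrib]
  map_smul' c x := by
    simp only [mulv, Pi.smul_apply, smul_eq_mul, RingHom.id_apply, Finset.mul_sum, mul_assoc]

theorem fn_eq_zero {F : Type} [Field F] {N : ℕ} (y : Finset (Fin (N + 1)) → F) (hy : Hom N y) :
    fn y = 0 ↔ y = 0 := by
  constructor
  · intro h
    funext S
    by_contra hS
    have h1 := hy S hS
    obtain ⟨j, hj⟩ : ∃ j, j ∉ S := by
      by_contra hcon
      push Not at hcon
      have h2 : S = univ := Finset.eq_univ_of_forall hcon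
      rw [h2, Finset.card_univ, Fintype.card_fin] at h1
      omega
    have h3 : S = univ.erase j := by
      apply Finset.eq_of_subset_of_card_le
      · intro i hi
        rw [Finset.mem_erase]
        exact ⟨fun hij => hj (hij ▸ hi), Finset.mem_univ i⟩
      · rw [Finset.card_erase_of_mem (Finset.mem_univ j), Finset.card_univ, Fintype.card_fin, h1]
        omega
    have h4 : fn y (Pi.single j 1) = 0 := by rw [h]; rfl
    have h5 : mulv (Pi.single j 1) y univ = y (univ.erase j) := by
      rw [mulv, Finset.sum_eq_single j]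
      · simp
      · intro i _ hij
        rw [Pi.single_eq_of_ne hij, zero_mul]
      · intro hn
        exact absurd (Finset.mem_univ j) hn
    apply hS
    rw [h3, ← h5]
    exact h4
  · rintro rfl
    apply LinearMap.ext
    intro x
    show mulv x (0 : Finset (Fin (N + 1)) → F) univ = 0
    simp [mulv]

theorem t_CHR : S_CHR := by
  classical
  intro F _ _
  obtain ⟨ψ, hψ⟩ := exists_prim F
  refine ⟨ψ, hψ, fun N y hy => ?_⟩
  have h1 := sum_lin ψ hψ (fn y)
  have h2 : ∑ u, ψ (fn y u) = ∑ x : Fin (N + 1) → F, ψ (mulv x y univ) := rfl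
  have hc : (Fintype.card (Fin (N + 1) → F) : ℂ) = ((q F ^ (N + 1) : ℝ) : ℂ) := by
    rw [Fintype.card_fun, Fintype.card_fin, q]
    push_cast
    rfl
  have hc0 : ((q F ^ (N + 1) : ℝ) : ℂ) ≠ 0 := by
    rw [← hc]
    exact Nat.cast_ne_zero.mpr (Fintype.card_ne_zero (α := Fin (N + 1) → F))
  rw [← h2, h1, hc]
  by_cases h0 : y = 0
  · rw [if_pos ((fn_eq_zero y hy).2 h0), div_self hc0, zf, if_pos h0]
    norm_num
  · rw [if_neg (fun h => h0 ((fn_eq_zero y hy).1 h)), zero_div, zf, if_neg h0]
    norm_num

end Run7.h834.PM
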