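import Pool.Agent.Run7.h834.PM.CHR

/-!
# Piece QUAD of project PM (helper282), by helper834: the Gauss sum bound
-/

set_option autoImplicit false
set_option linter.all false

open Finset ComplexConjugate

namespace Run7.h834.PM

open Run7.h282.PM

section

variable {F V : Type} [Field F] [Fintype F] [AddCommGroup V] [Module F V] [Fintype V]

open Classical in
theorem card_ker (B : V →ₗ[F] V →ₗ[F] F) :
    (Nat.card {u : V // B u = 0} : ℂ) = ∑ u : V, if B u = 0 then (1 : ℂ) else 0 := by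
  rw [Nat.card_eq_fintype_card, Fintype.card_subtype, Finset.sum_boole]

/-- the quadratic Gauss sum -/
noncomputable def GS (ψ : AddChar F ℂ) (B : V →ₗ[F] V →ₗ[F] F) (c : F) : ℂ :=
  ∑ u : V, ψ (c * B u u)

theorem GS_sq (ψ : AddChar F ℂ) (hψ : ψ.IsPrimitive) (h2 : (2 : F) ≠ 0)
    (B : V →ₗ[F] V →ₗ[F] F) (hB : ∀ u w, B u w = B w u) (c : F) (hc : c ≠ 0) :
    GS ψ B c * conj (GS ψ B c) = (Fintype.card V : ℂ) * (Nat.card {u : V // B u = 0} : ℂ) := by
  classical
  have e1 : conj (GS ψ B c) = ∑ u : V, ψ (-(c * B u u)) := by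
    rw [GS, map_sum]
    exact Finset.sum_congr rfl fun u _ => (AddChar.map_neg_eq_conj ψ _).symm
  rw [e1, GS, Finset.sum_mul_sum, Finset.sum_comm]
  have e2 : ∀ u : V, ∑ w : V, ψ (c * B w w) * ψ (-(c * B u u)) =
      ∑ h : V, ψ (c * B h h) * ψ (((2 * c) • B h) u) := by
    intro u
    refine (Fintype.sum_equiv (Equiv.addLeft u) _ _ fun h => ?_).symm
    rw [← AddChar.map_add_eq_mul, ← AddChar.map_add_eq_mul]
    congr 1
    show c * B h h + (2 * c) * B h u = c * B (u + h) (u + h) + -(c * B u u)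
    simp only [map_add, LinearMap.add_apply]
    rw [hB u h]
    ring
  rw [Finset.sum_congr rfl fun u _ => e2 u, Finset.sum_comm, card_ker, Finset.mul_sum]
  refine Finset.sum_congr rfl fun h _ => ?_
  rw [← Finset.mul_sum, sum_lin ψ hψ]
  have h2c : 2 * c ≠ 0 := mul_ne_zero h2 hc
  by_cases hh : B h = 0
  · rw [if_pos (by rw [hh, smul_zero]), if_pos hh, hh, LinearMap.zero_apply, mul_zero,
      AddChar.map_zero_eq_one, one_mul, mul_one]
  · rw [if_neg (fun h0 => hh ((smul_eq_zero.1 h0).resolve_left h2c)), if_neg hh, mul_zero, mul_zero]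

theorem total (ψ : AddChar F ℂ) (hψ : ψ.IsPrimitive)
    (B : V →ₗ[F] V →ₗ[F] F) (hB : ∀ u w, B u w = B w u) (c0 c1 c2 : F) (h1 : c1 ≠ 0) :
    ∑ u0 : V, ∑ u1 : V, ∑ u2 : V, ψ (c0 * B u1 u2 + c1 * B u0 u2 + c2 * B u0 u1) =
      (Fintype.card V : ℂ) * (Nat.card {u : V // B u = 0} : ℂ) * GS ψ B (-(c0 * c2 / c1)) := by
  classical
  rw [Finset.sum_comm]
  have e0 : ∀ u1 : V, ∑ u0 : V, ∑ u2 : V, ψ (c0 * B u1 u2 + c1 * B u0 u2 + c2 * B u0 u1) =
      (Fintype.card V : ℂ) * (Nat.card {u : V // B u = 0} : ℂ) *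
        ψ (-(c0 * c2 / c1) * B u1 u1) := by
    intro u1
    rw [Finset.sum_comm]
    have e1 : ∀ u2 : V, ∑ u0 : V, ψ (c0 * B u1 u2 + c1 * B u0 u2 + c2 * B u0 u1) =
        ψ (c0 * B u1 u2) * (if B (c1 • u2 + c2 • u1) = 0 then (Fintype.card V : ℂ) else 0) := by
      intro u2
      rw [← sum_lin ψ hψ, Finset.mul_sum]
      refine Finset.sum_congr rfl fun u0 _ => ?_
      rw [← AddChar.map_add_eq_mul]
      congr 1
      rw [map_add, map_smul, map_smul, LinearMap.add_apply, LinearMap.smul_apply,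
        LinearMap.smul_apply, smul_eq_mul, smul_eq_mul, hB u0 u2, hB u0 u1]
      ring
    rw [Finset.sum_congr rfl fun u2 _ => e1 u2]
    let e : V ≃ V :=
      { toFun := fun v => c1⁻¹ • (v - c2 • u1)
        invFun := fun u => c1 • u + c2 • u1
        left_inv := fun v => by
          show c1 • (c1⁻¹ • (v - c2 • u1)) + c2 • u1 = v
          rw [smul_smul, mul_inv_cancel₀ h1, one_smul, sub_add_cancel]
        right_inv := fun u => by
          show c1⁻¹ • (c1 • u + c2 • u1 - c2 • u1) = u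
          rw [add_sub_cancel_right, smul_smul, inv_mul_cancel₀ h1, one_smul] }
    have e2 : ∑ u2 : V, ψ (c0 * B u1 u2) *
        (if B (c1 • u2 + c2 • u1) = 0 then (Fintype.card V : ℂ) else 0) =
        ∑ v : V, (if B v = 0 then (1 : ℂ) else 0) *
          ((Fintype.card V : ℂ) * ψ (-(c0 * c2 / c1) * B u1 u1)) := by
      refine (Fintype.sum_equiv e _ _ fun v => ?_).symm
      have h3 : c1 • (e v) + c2 • u1 = v := e.left_inv v
      rw [h3]
      by_cases hv : B v = 0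
      · rw [if_pos hv, if_pos hv, one_mul, mul_comm]
        congr 1
        congr 1
        show _ = c0 * B u1 (c1⁻¹ • (v - c2 • u1))
        rw [map_smul, map_sub, map_smul, hB u1 v, hv, LinearMap.zero_apply, smul_eq_mul,
          smul_eq_mul]
        field_simp
        ring
      · rw [if_neg hv, if_neg hv, zero_mul, mul_zero]
    rw [e2, ← Finset.sum_mul, ← card_ker]
    ring
  rw [Finset.sum_congr rfl fun u1 _ => e0 u1, ← Finset.mul_sum, GS]

end

theorem t_QUAD : S_QUAD := by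
  intro F _ _ h2 ψ hψ N B hB hK c0 c1 c2 hc0 hc1 hc2
  rw [total ψ hψ B hB c0 c1 c2 hc1]
  obtain ⟨c, hc⟩ : ∃ c, c = -(c0 * c2 / c1) := ⟨_, rfl⟩
  have hcne : c ≠ 0 := by
    rw [hc]
    exact neg_ne_zero.2 (div_ne_zero (mul_ne_zero hc0 hc2) hc1)
  rw [← hc]
  have hsq := GS_sq ψ hψ h2 B hB c hcne
  have hcard : (Fintype.card (Fin N → F) : ℝ) = q F ^ N := by
    rw [Fintype.card_fun, Fintype.card_fin, q]
    push_cast
    rfl
  obtain ⟨k, hk⟩ : ∃ k : ℝ, k = (Nat.card {u : Fin N → F // B u = 0} : ℝ) := ⟨_, rfl⟩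
  have hk0 : 0 ≤ k := by rw [hk]; exact Nat.cast_nonneg _
  have hq : 0 < q F := by
    unfold q
    exact_mod_cast Fintype.card_pos
  obtain ⟨v, hv⟩ : ∃ v : ℝ, v = q F ^ N := ⟨_, rfl⟩
  have hv0 : 0 < v := by rw [hv]; positivity
  have hG : ‖GS ψ B c‖ ^ 2 = v * k := by
    have h3 : ((‖GS ψ B c‖ ^ 2 : ℝ) : ℂ) = ((v * k : ℝ) : ℂ) := by
      have h4 := Complex.mul_conj (GS ψ B c)
      rw [hsq, Complex.normSq_eq_norm_sq] at h4
      rw [← h4, hv, hk, ← hcard]
      push_cast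
      rfl
    exact_mod_cast h3
  rw [norm_mul, norm_mul, Complex.norm_natCast, Complex.norm_natCast, hcard, ← hk, ← hv]
  rw [← hk, ← hv] at hK
  have hG2 : ‖GS ψ B c‖ ≤ v / q F := by
    have h5 : (0 : ℝ) ≤ v / q F := by positivity
    refine (sq_le_sq₀ (norm_nonneg _) h5).1 ?_
    rw [hG, div_pow, le_div_iff₀ (by positivity)]
    calc v * k * q F ^ 2 = v * (k * q F ^ 2) := by ring
      _ ≤ v * v := mul_le_mul_of_nonneg_left hK hv0.le
      _ = v ^ 2 := by ring
  calc v * k * ‖GS ψ B c‖ ≤ v * k * (v / q F) :=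
        mul_le_mul_of_nonneg_left hG2 (by positivity)
    _ = v ^ 2 * k / q F := by ring

end Run7.h834.PM
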